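import Mathlib

namespace Pool.Agent.H.MP_46c8ea_co

open Finset

def vert (n : ℤ) (x : List ℤ) (t : ℕ) : ℤ := -n + (x.take t).sum

def X (n : ℤ) (k : ℕ) : Set (List ℤ) :=
  {x | 2 ≤ x.length ∧ (∀ s ∈ x, s = -2 ∨ s = 4) ∧ x.count (-2) = k ∧ x.sum = 2 * n ∧
    ∀ t, 1 ≤ t → t < x.length → vert n x t ≠ n ∧ vert n x t ≠ -n}

noncomputable def h (n : ℤ) (x : List ℤ) : ℝ :=
  ∏ t ∈ Ico 1 x.length, 1 / ((n : ℝ) ^ 2 - (vert n x t : ℝ) ^ 2)

noncomputable def B (k : ℕ) (n : ℤ) : ℝ := ∑ᶠ x ∈ X n k, h n x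

def L : ℕ → Finset (List ℤ)
  | 0 => {[]}
  | N + 1 => (L N).image (List.cons (-2)) ∪ (L N).image (List.cons 4)

lemma mem_L (N : ℕ) : ∀ x, x ∈ L N ↔ x.length = N ∧ ∀ s ∈ x, s = -2 ∨ s = 4 := by
  induction N with
  | zero => intro x; simp +contextual [L]
  | succ N ih =>
    intro x
    rcases x with _ | ⟨a, x⟩
    · simp [L]
    · simp only [L, mem_union, mem_image, List.cons.injEq, ih, List.length_cons, List.mem_cons,
        forall_eq_or_imp, Nat.add_right_cancel_iff]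
      constructor
      · rintro (⟨y, h, rfl, rfl⟩ | ⟨y, h, rfl, rfl⟩) <;> simp [h.1] <;> exact h.2
      · rintro ⟨h1, rfl | rfl, h2⟩
        · exact Or.inl ⟨x, ⟨h1, h2⟩, rfl, rfl⟩
        · exact Or.inr ⟨x, ⟨h1, h2⟩, rfl, rfl⟩

lemma sum_L (N : ℕ) (f : List ℤ → ℝ) :
    ∑ x ∈ L (N + 1), f x = ∑ x ∈ L N, f (-2 :: x) + ∑ x ∈ L N, f (4 :: x) := by
  rw [L, sum_union, sum_image fun _ _ _ _ h => by simpa using h,
    sum_image fun _ _ _ _ h => by simpa using h]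
  rw [disjoint_left]
  simp only [mem_image, not_exists, not_and]
  rintro _ ⟨y, -, rfl⟩ z - h
  simp at h

lemma sum_eq (x : List ℤ) (h : ∀ s ∈ x, s = -2 ∨ s = 4) :
    x.sum = 4 * x.length - 6 * x.count (-2) := by
  induction x with
  | nil => simp
  | cons a x ih =>
    have := ih fun s hs => h s (by simp [hs])
    rcases h a (by simp) with rfl | rfl <;> simp [this] <;> ring

noncomputable def W (n : ℝ) : ℤ → List ℤ → ℝ
  | _, [] => 1
  | j, s :: x => 1 / (n ^ 2 - (j : ℝ) ^ 2) * W n (j + s) x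

lemma W_eq (n : ℝ) (x : List ℤ) : ∀ j : ℤ, W n j x =
    ∏ t ∈ range x.length, 1 / (n ^ 2 - ((j + (x.take t).sum : ℤ) : ℝ) ^ 2) := by
  induction x with
  | nil => simp [W]
  | cons s x ih =>
    intro j
    rw [W, ih, List.length_cons, prod_range_succ', mul_comm]
    simp [add_assoc]

lemma h_eq (n s : ℤ) (x : List ℤ) : h n (s :: x) = W n (-n + s) x := by
  rw [W_eq, h, prod_Ico_eq_prod_range]
  refine prod_congr (by simp) fun t _ => ?_
  simp [vert, add_comm 1 t, add_assoc]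

noncomputable def G (n : ℝ) (N k : ℕ) (j : ℤ) : ℝ :=
  ∑ x ∈ L N, if x.count (-2) = k then W n j x else 0

lemma G_zero (n : ℝ) (N : ℕ) (j : ℤ) :
    G n (N + 1) 0 j = 1 / (n ^ 2 - (j : ℝ) ^ 2) * G n N 0 (j + 4) := by
  simp [G, sum_L, W, Finset.mul_sum]

lemma G_succ (n : ℝ) (N k : ℕ) (j : ℤ) : G n (N + 1) (k + 1) j =
    1 / (n ^ 2 - (j : ℝ) ^ 2) * (G n N k (j + -2) + G n N (k + 1) (j + 4)) := by
  simp [G, sum_L, W, Finset.mul_sum, mul_add]

lemma G_big (n : ℝ) (N k : ℕ) (j : ℤ) (h : N < k) : G n N k j = 0 :=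
  sum_eq_zero fun x hx => if_neg fun e => by
    have := ((mem_L N x).1 hx).1
    have := List.count_le_length (a := -2) (l := x)
    omega

noncomputable def v (n u : ℝ) : ℝ := 1 / (4 * u * (n - u))

noncomputable def g (n : ℤ) (k q : ℕ) : ℝ := G n (k + q) k (n - 4 * q + 2 * k)

lemma g00 (n : ℤ) : g n 0 0 = 1 := by simp [g, G, L, W]

lemma g0 (n : ℤ) (q : ℕ) : g n 0 (q + 1) = v n (2 * q + 2) * g n 0 q := by
  rw [g, ← add_assoc, G_zero, g, v]
  congr 2 <;> push_cast <;> ring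

lemma g1 (n : ℤ) (k : ℕ) : g n (k + 1) 0 = v n (-k - 1) * g n k 0 := by
  rw [g, add_zero, G_succ, G_big _ k (k + 1) _ (by omega), add_zero, g, v]
  congr 2 <;> push_cast <;> ring

lemma g2 (n : ℤ) (k q : ℕ) :
    g n (k + 1) (q + 1) = v n (2 * q + 1 - k) * (g n k (q + 1) + g n (k + 1) q) := by
  rw [g, ← add_assoc, G_succ, g, g, v, show k + (q + 1) = k + 1 + q by omega]
  congr 2
  · push_cast; ring
  · congr 1; push_cast; ring
  · congr 1; push_cast; ring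

lemma sub (m : ℕ) : X (2 * m + 1) 3 ⊆ L (m + 5) := by
  rintro x ⟨-, h1, h2, h3, -⟩
  have := sum_eq x h1
  rw [h2, h3] at this
  exact (mem_L _ _).2 ⟨by omega, h1⟩

lemma B_eq (m : ℕ) : B 3 (2 * m + 1) = g (2 * m + 1) 2 (m + 2) + g (2 * m + 1) 3 (m + 1) := by
  classical
  have e : X (2 * m + 1) 3 = ((L (m + 5)).filter (· ∈ X (2 * m + 1) 3) : Finset _) := by
    ext x
    simpa using fun h => sub m h
  rw [B, e, finsum_mem_coe_finset, sum_filter]
  rw [sum_congr rfl (g := fun x => if x.count (-2) = 3 then h (2 * m + 1) x else 0)]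
  · rw [sum_L, g, g, G, G, show 2 + (m + 2) = m + 4 by omega, show 3 + (m + 1) = m + 4 by omega]
    congr 1 <;> refine sum_congr rfl fun x _ => ?_
    · rw [h_eq, show -(2 * (m : ℤ) + 1) + -2 = 2 * m + 1 - 4 * (m + 2 : ℕ) + 2 * (2 : ℕ) by
        push_cast; ring]
      simp
    · rw [h_eq, show -(2 * (m : ℤ) + 1) + 4 = 2 * m + 1 - 4 * (m + 1 : ℕ) + 2 * (3 : ℕ) by
        push_cast; ring]
      simp
  · intro x hx
    obtain ⟨h1, h2⟩ := (mem_L _ _).1 hx
    by_cases hc : x.count (-2) = 3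
    · rw [if_pos hc]
      split_ifs with hX
      · rfl
      · have h3 := sum_eq x h2
        rw [hc, h1] at h3
        by_contra hn
        refine hX ⟨by omega, h2, hc, by rw [h3]; push_cast; ring, fun t t1 t2 => ?_⟩
        by_contra ht
        refine hn (prod_eq_zero (mem_Ico.2 ⟨t1, t2⟩) ?_).symm
        rcases not_and_or.1 ht with ht | ht <;> rw [not_not.1 ht] <;> simp [-neg_add_rev]
    · rw [if_neg hc, if_neg fun hX => hc hX.2.2.1]

lemma mid (m : ℕ) : B 3 (2 * m + 1) =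
    ∑ p ∈ range (m + 3), g (2 * m + 1) 1 p * g (2 * m + 1) 1 (m + 2 - p) := by
  set n : ℤ := 2 * m + 1 with hn
  have vs : ∀ u w : ℝ, u + w = 2 * m + 1 → v n u = v n w := by
    intro u w h
    have : (n : ℝ) = u + w := by rw [h, hn]; push_cast; ring
    rw [v, v, this]
    congr 1; ring
  have key : ∀ b a, a + b = m + 1 → B 3 n = g n 0 b * g n 3 a + g n 1 b * g n 2 a +
      ∑ p ∈ range (b + 1), g n 1 p * g n 1 (m + 2 - p) := by
    intro b
    induction b with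
    | zero =>
      intro a ha
      obtain rfl : a = m + 1 := by omega
      rw [B_eq, g2 n 1 (m + 1), sum_range_one, g1 n 0, g00, vs _ (-(0 : ℕ) - 1) (by push_cast; ring)]
      simp only [Nat.sub_zero]
      ring
    | succ b ih =>
      intro a ha
      have ha' : (a : ℝ) + b = m := by exact_mod_cast (by omega : a + b = m)
      rw [ih (a + 1) (by omega), sum_range_succ _ (b + 1), show m + 2 - (b + 1) = a + 1 by omega,
        g2 n 2 a, g2 n 0 b, g2 n 1 a, g0 n b,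
        vs (2 * a + 1 - (2 : ℕ)) (2 * b + 2) (by push_cast; linarith),
        vs (2 * a + 1 - (1 : ℕ)) (2 * b + 1 - (0 : ℕ)) (by push_cast; linarith)]
      ring
  rw [key (m + 1) 0 (by omega), sum_range_succ _ (m + 2), Nat.sub_self, g1 n 2, g1 n 1,
    g2 n 0 (m + 1), g0 n (m + 1),
    vs (-(2 : ℕ) - 1) (2 * (m + 1 : ℕ) + 2) (by push_cast; ring),
    vs (-(1 : ℕ) - 1) (2 * (m + 1 : ℕ) + 1 - (0 : ℕ)) (by push_cast; ring)]
  ring

lemma va (n u : ℝ) (h1 : u ≠ 0) (h2 : n - u ≠ 0) :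
    ∃ a b : ℝ, a ≠ 0 ∧ b ≠ 0 ∧ v n u = 1 / (4 * a * b) ∧ a = u ∧ b = n - u :=
  ⟨_, _, h1, h2, rfl, rfl, rfl⟩

lemma F_eq (m : ℕ) (hm : 1 ≤ m) (p : ℕ) (hp : p ≤ m) :
    g (2 * m + 1) 1 p = (2 * p - m) / (8 * m * (m + 1)) * g (2 * m + 1) 0 p := by
  have h1 : (1 : ℝ) ≤ m := by exact_mod_cast hm
  induction p with
  | zero =>
    rw [g1]
    push_cast
    obtain ⟨a, b, a0, b0, e, ea, eb⟩ := va (2 * m + 1) (-0 - 1) (by linarith) (by linarith)
    rw [e]
    field_simp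
    rw [ea, eb]; ring
  | succ p ih =>
    have h2 : (p + 1 : ℝ) ≤ m := by exact_mod_cast hp
    have h0 : (0 : ℝ) ≤ p := Nat.cast_nonneg p
    rw [g2, ih (by omega), g0]
    push_cast
    obtain ⟨a, b, a0, b0, e, ea, eb⟩ := va (2 * m + 1) (2 * p + 1 - 0) (by linarith) (by linarith)
    obtain ⟨c, d, c0, d0, f, ec, ed⟩ := va (2 * m + 1) (2 * p + 2) (by linarith) (by linarith)
    rw [e, f]
    generalize g (2 * m + 1) 0 p = y
    field_simp
    rw [ea, eb, ec, ed]; ring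

lemma E_eq (m : ℕ) (p : ℕ) (hp : p ≤ m) : g (2 * m + 1) 0 p * 4 ^ p * (2 ^ p * p.factorial) *
    ∏ i ∈ range p, (2 * m - 1 - 2 * i : ℝ) = 1 := by
  induction p with
  | zero => simp [g00]
  | succ p ih =>
    have h2 : (p + 1 : ℝ) ≤ m := by exact_mod_cast hp
    have h0 : (0 : ℝ) ≤ p := Nat.cast_nonneg p
    refine Eq.trans ?_ (ih (by omega))
    rw [g0, prod_range_succ, Nat.factorial_succ]
    push_cast
    obtain ⟨c, d, c0, d0, f, ec, ed⟩ := va (2 * m + 1) (2 * p + 2) (by linarith) (by linarith)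
    rw [f]
    generalize g (2 * m + 1) 0 p = y
    generalize ∏ i ∈ range p, (2 * m - 1 - 2 * i : ℝ) = z
    field_simp
    rw [ec, ed]; ring

lemma fact (m : ℕ) : (2 ^ m * m.factorial : ℝ) * ∏ i ∈ range m, (2 * m - 1 - 2 * i : ℝ) =
    (2 * m).factorial := by
  induction m with
  | zero => simp
  | succ m ih =>
    rw [prod_range_succ', show 2 * (m + 1) = 2 * m + 1 + 1 by ring, Nat.factorial_succ,
      Nat.factorial_succ (2 * m + 1), Nat.factorial_succ (2 * m)]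
    push_cast
    rw [← ih, prod_congr rfl (g := fun i : ℕ => (2 * m - 1 - 2 * i : ℝ)) fun i _ => by ring]
    ring

noncomputable def Z (m p : ℝ) : ℝ := p * (2 * m + 1 - 2 * p) *
  (-(m ^ 2 + m + 6) * (2 * p - m - 3) ^ 3 + (13 * m ^ 2 + 13 * m + 6) * (2 * p - m - 3)) /
    (192 * (m + 2) * (m - 1) * m ^ 3 * (m + 1) ^ 3)

lemma tele (m : ℕ) (hm : 2 ≤ m) (i : ℕ) : ∀ r, 2 + i + r = m + 1 →
    ∑ p ∈ Ico 2 (2 + i), g (2 * m + 1) 1 p * g (2 * m + 1) 1 (m + 2 - p) =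
      Z m (2 + i) * (g (2 * m + 1) 0 (2 + i) * g (2 * m + 1) 0 (r + 1)) -
        Z m 2 * (g (2 * m + 1) 0 2 * g (2 * m + 1) 0 m) := by
  have h1 : (2 : ℝ) ≤ m := by exact_mod_cast hm
  induction i with
  | zero =>
    intro r hr
    obtain rfl : m = r + 1 := by omega
    simp
  | succ i ih =>
    intro r hr
    have h0 : (0 : ℝ) ≤ i := Nat.cast_nonneg i
    have h2 : (0 : ℝ) ≤ r := Nat.cast_nonneg r
    have e : (r : ℝ) = m - i - 2 := by
      have : (2 + (i + 1) + r : ℝ) = m + 1 := by exact_mod_cast hr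
      linarith
    rw [← add_assoc, sum_Ico_succ_top (by omega), ih (r + 1) (by omega),
      show m + 2 - (2 + i) = r + 1 + 1 by omega, F_eq m (by omega) _ (by omega),
      F_eq m (by omega) _ (by omega), g0 _ (r + 1), g0 _ (2 + i)]
    generalize g (2 * m + 1) 0 (2 + i) = y
    generalize g (2 * m + 1) 0 (r + 1) = z
    generalize Z m 2 * _ = w
    push_cast
    obtain ⟨a, b, a0, b0, f1, ea, eb⟩ := va (2 * m + 1) (2 * (r + 1) + 2) (by linarith)
      (by linarith)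
    obtain ⟨c, d, c0, d0, f2, ec, ed⟩ := va (2 * m + 1) (2 * (2 + i) + 2) (by linarith) (by
      intro h
      have : (2 * m + 1 : ℝ) = 2 * (2 + i) + 2 := by linarith
      have : 2 * m + 1 = 2 * (2 + i) + 2 := by exact_mod_cast this
      omega)
    rw [f1, f2, Z, Z]
    have : (m - 1 : ℝ) ≠ 0 := by linarith
    field_simp
    rw [ea, eb, ec, ed, e]; ring

theorem closed (m : ℕ) (hm : 2 ≤ m) : B 3 (2 * m + 1) = 3 * (m + 2) /
    (4 ^ (m + 5) * m ^ 2 * (m + 1) ^ 3 * (2 * m - 1) * (2 * m + 3) * (2 * m).factorial) := by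
  have h1 : (2 : ℝ) ≤ m := by exact_mod_cast hm
  have z : g (2 * m + 1) 1 (m + 1) = 0 := by rw [g2]; simp [v]
  have t := tele m hm (m - 1) 0 (by omega)
  rw [show 2 + (m - 1) = m + 1 by omega] at t
  have e : g (2 * m + 1) 0 m = 1 / (4 ^ m * (2 * m).factorial) := by
    rw [eq_div_iff (by positivity), ← fact]
    refine Eq.trans ?_ (E_eq m m le_rfl)
    ring
  rw [mid, range_eq_Ico, sum_eq_sum_Ico_succ_bot (by omega), sum_eq_sum_Ico_succ_bot (by omega),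
    sum_Ico_succ_top (by omega), sum_Ico_succ_top (by omega), t,
    show m + 2 - (0 + 1) = m + 1 by omega, Nat.sub_self, Nat.sub_zero, g2 _ 0 (m + 1), z,
    g1 _ 0, g0 _ (m + 1), g0 _ m, g0 _ 1, g0 _ 0, g00, e, Nat.cast_sub (by omega)]
  push_cast
  have e1 : v (2 * m + 1) (-0 - 1) = -1 / (8 * (m + 1)) := by
    rw [v, div_eq_div_iff (by nlinarith) (by positivity)]; ring
  have e2 : v (2 * m + 1) (2 * (m + 1) + 1 - 0) = -1 / (8 * (2 * m + 3)) := by
    rw [v, div_eq_div_iff (by nlinarith) (by positivity)]; ring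
  have e3 : v (2 * m + 1) (2 * (m + 1) + 2) = -1 / (24 * (m + 2)) := by
    rw [v, div_eq_div_iff (by nlinarith) (by positivity)]; ring
  have e4 : v (2 * m + 1) (2 * m + 2) = -1 / (8 * (m + 1)) := by
    rw [v, div_eq_div_iff (by nlinarith) (by positivity)]; ring
  obtain ⟨a, a0, ea⟩ : ∃ a : ℝ, a ≠ 0 ∧ a = 2 * m - 3 := ⟨_, by linarith, rfl⟩
  obtain ⟨b, b0, eb⟩ : ∃ b : ℝ, b ≠ 0 ∧ b = 2 * m - 1 := ⟨_, by linarith, rfl⟩
  have e5 : v (2 * m + 1) (2 * 1 + 2) = 1 / (16 * a) := by rw [v, ea]; congr 1; ring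
  have e6 : v (2 * m + 1) (2 * 0 + 2) = 1 / (8 * b) := by rw [v, eb]; congr 1; ring
  rw [e1, e2, e3, e4, e5, e6, Z, Z, ← eb]
  have : (m - 1 : ℝ) ≠ 0 := by linarith
  field_simp
  rw [ea, eb]; ring

end Pool.Agent.H.MP_46c8ea_co
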